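import Pool.Agent.PathMix2.Main

set_option autoImplicit false

open PathMix

namespace Pool.Agent.Results.MP_261efc_co.Classification

/-- Complete answer: for `n ≥ 5` some probability density `f` makes the averaged mixing matrix of
the path `P_n` a matrix of rank one if and only if `n + 1` is neither a multiple of `6` different
from `6`, nor a multiple of `15`, nor a multiple of `21`. -/
theorem result (n : ℕ) (hn : 5 ≤ n) :
    (∃ f : ℝ → ℝ, IsDensity f ∧ (Mavg n f).rank = 1) ↔
      ¬ (6 ∣ n + 1 ∧ n + 1 ≠ 6) ∧ ¬ 15 ∣ n + 1 ∧ ¬ 21 ∣ n + 1 :=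
  PathMix2.classification n hn

end Pool.Agent.Results.MP_261efc_co.Classification
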